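import Pool.Agent.Lib.MP_a25f44_gt.SEll

/-! Every representation of Euler class `± (2 g - 3)` is the holonomy of a hyperbolic cone
structure with one cone point of angle `4 π`. -/

open scoped MatrixGroups
open Pool.Agent.Lib.MP_a25f44_gt

theorem Pool.Agent.Results.MP_a25f44_gt.ConeHolonomy.result (g : ℕ) (hg : 2 ≤ g)
    (ρ : SurfGroup g →* PSL(2, ℝ)) (n : ℤ) (hn : |n| = 2 * (g : ℤ) - 3)
    (h : HasEulerNumber ρ n) : IsConeHolonomy ρ :=
  A25f44.result_of_succ g hg (fun _ _ _ hA => A25f44.succ_of_adm hA) ρ n hn h
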